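import Pool.Agent.H31.Hahn.Assemble

/-!
# MP_d1cc5d_lc: complexity of the length of elements of Hahn fields

Let `K` be a computable algebraically closed field of characteristic `0` and `G` a computable
nontrivial divisible ordered abelian group. For every computable ordinal `α ≥ 1` let `β` be the
ordinal with `ω ^ β ≤ α < ω ^ (β + 1)`. If `α = ω ^ β` and `β ≥ 1`, the relation
`length(s) ≥ α` is `Π⁰_{2·β}` relative to `s`, uniformly in `s`, and it is not `Σ⁰_{2·β}`. In all
other cases it is `Σ⁰_{2·β+1}`, and it is not `Π⁰_{2·β+1}`.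

The definitions (`FieldPres`, `GroupPres`, `length`, `rep`, `IsNotation`, `IsComputableOrdinal`,
`IsCodeSystem`, `SigmaRel`, `PiRel`) are in `Pool/Agent/H31/Hahn/Defs.lean`.
-/

namespace Pool.Agent.Results.MP_d1cc5d_lc.HahnLength

open Pool.Agent.H31.Hahn
open Ordinal

theorem dense {G : Type} [AddCommGroup G] [LinearOrder G] [IsOrderedAddMonoid G]
    (hdiv : ∀ n : ℕ, n ≠ 0 → ∀ g : G, ∃ h : G, n • h = g) : DenselyOrdered G := by
  refine ⟨fun p q hpq => ?_⟩
  obtain ⟨h, hh⟩ := hdiv 2 two_ne_zero (p + q)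
  rw [two_nsmul] at hh
  refine ⟨h, ?_, ?_⟩
  · by_contra hc
    rw [not_lt] at hc
    have h1 : h + h ≤ p + p := add_le_add hc hc
    have h2 : p + p < p + q := by simpa using hpq
    rw [hh] at h1
    exact absurd (h1.trans_lt h2) (lt_irrefl _)
  · by_contra hc
    rw [not_lt] at hc
    have h1 : q + q ≤ h + h := add_le_add hc hc
    have h2 : p + q < q + q := by simpa using hpq
    rw [hh] at h1
    exact absurd (h2.trans_le h1) (lt_irrefl _)

theorem result {K G : Type} [Field K] [IsAlgClosed K] [CharZero K]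
    [AddCommGroup G] [LinearOrder G] [IsOrderedAddMonoid G] [Nontrivial G]
    (hdiv : ∀ n : ℕ, n ≠ 0 → ∀ g : G, ∃ h : G, n • h = g)
    (PK : FieldPres K) (PG : GroupPres G)
    (α : Ordinal.{0}) (hα : IsComputableOrdinal α) (h0 : α ≠ 0) :
    ∃ β : Ordinal.{0}, ω ^ β ≤ α ∧ α < ω ^ (β + 1) ∧
      ((α = ω ^ β ∧ β ≠ 0) →
        PiRel (rep PK PG) (2 * β) (fun s : HahnSeries G K => α ≤ length s) ∧
        ¬ SigmaRel (rep PK PG) (2 * β) (fun s : HahnSeries G K => α ≤ length s)) ∧
      ((α ≠ ω ^ β ∨ β = 0) →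
        SigmaRel (rep PK PG) (2 * β + 1) (fun s : HahnSeries G K => α ≤ length s) ∧
        ¬ PiRel (rep PK PG) (2 * β + 1) (fun s : HahnSeries G K => α ≤ length s)) := by
  have hd : DenselyOrdered G := dense hdiv
  obtain ⟨o, ho, a, ha⟩ := hα
  have h1 : ω ^ log ω α ≤ α := opow_log_le_self ω h0
  have h2 : α < ω ^ (log ω α + 1) := by
    rw [← Order.succ_eq_add_one]
    exact lt_opow_succ_log_self one_lt_omega0 α
  have hle : log ω α ≤ α := (right_le_opow _ one_lt_omega0).trans h1
  obtain ⟨c, hc⟩ : ∃ c, o c = log ω α := by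
    rcases lt_or_eq_of_le hle with h | h
    · exact ho.init a _ (by rwa [ha])
    · exact ⟨a, ha.trans h.symm⟩
  refine ⟨log ω α, h1, h2, ?_, ?_⟩
  · rintro ⟨hα1, hβ⟩
    refine ⟨?_, ?_⟩
    · have := upper_pi PK PG ho c (by rw [hc]; exact hβ)
      rw [hc, ← hα1] at this
      exact this
    · have := hard_pi PK PG (log ω α) hβ
      rw [← hα1] at this
      exact this
  · intro h
    refine ⟨?_, ?_⟩
    · have := upper_sigma PK PG ho c α h0 (by rw [hc]; exact h2)
      rwa [hc] at this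
    · exact hard_sigma PK PG (log ω α) α h1 h2 h.symm

end Pool.Agent.Results.MP_d1cc5d_lc.HahnLength
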